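import Pool.Agent.W661.RC.Stm

/-!
Project RC: very good near-minimisers give pieces.
-/

set_option autoImplicit false

namespace Pool.Agent.W922.RC

open Pool.Agent.W661.RC Matrix
open scoped ComplexOrder

section basics

variable {d : ℕ}

theorem tr_add (x y : Mt d) : tr (x + y) = tr x + tr y := by
  unfold tr; rw [Matrix.trace_add, Complex.add_re]

theorem tr_sub (x y : Mt d) : tr (x - y) = tr x - tr y := by
  unfold tr; rw [Matrix.trace_sub, Complex.sub_re]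

theorem tr_smul (c : ℝ) (x : Mt d) : tr ((c : ℂ) • x) = c * tr x := by
  unfold tr; rw [Matrix.trace_smul, smul_eq_mul, Complex.re_ofReal_mul]

theorem tr_comm (x y : Mt d) : tr (x * y) = tr (y * x) := by
  unfold tr; rw [Matrix.trace_mul_comm]

theorem hs_eq (x : Mt d) : hs x = tr (xᴴ * x) := by
  unfold hs tr Matrix.trace
  rw [Complex.re_sum, Finset.sum_comm]
  refine Finset.sum_congr rfl (fun j _ => ?_)
  rw [Matrix.diag_apply, Matrix.mul_apply, Complex.re_sum]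
  refine Finset.sum_congr rfl (fun i _ => ?_)
  rw [Matrix.conjTranspose_apply, Complex.star_def, ← Complex.normSq_eq_conj_mul_self,
    Complex.ofReal_re, Complex.normSq_eq_norm_sq]

theorem hs_eq' (x : Mt d) : hs x = tr (x * xᴴ) := by
  rw [hs_eq, tr_comm]

theorem hs_star (x : Mt d) : hs xᴴ = hs x := by
  rw [hs_eq, conjTranspose_conjTranspose, ← hs_eq']

theorem hs_neg (x : Mt d) : hs (-x) = hs x := by
  unfold hs
  simp

theorem hs_nonneg (x : Mt d) : 0 ≤ hs x :=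
  Finset.sum_nonneg (fun _ _ => Finset.sum_nonneg (fun _ _ => sq_nonneg _))

theorem en_nonneg {k : ℕ} (u : Fin k → Mt d) (x : Mt d) : 0 ≤ en u x :=
  Finset.sum_nonneg (fun _ _ => hs_nonneg _)

theorem nsq2 (a b : ℂ) : ‖a + b‖ ^ 2 ≤ 2 * ‖a‖ ^ 2 + 2 * ‖b‖ ^ 2 := by
  have h := norm_add_le a b
  nlinarith [norm_nonneg a, norm_nonneg b, norm_nonneg (a + b), sq_nonneg (‖a‖ - ‖b‖)]

theorem nsq3 (a b c : ℂ) : ‖a + b + c‖ ^ 2 ≤ 3 * (‖a‖ ^ 2 + ‖b‖ ^ 2 + ‖c‖ ^ 2) := by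
  have h : ‖a + b + c‖ ≤ ‖a‖ + ‖b‖ + ‖c‖ := norm_add₃_le
  nlinarith [norm_nonneg a, norm_nonneg b, norm_nonneg c, norm_nonneg (a + b + c),
    sq_nonneg (‖a‖ - ‖b‖), sq_nonneg (‖a‖ - ‖c‖), sq_nonneg (‖b‖ - ‖c‖)]

theorem hs_add (x y : Mt d) : hs (x + y) ≤ 2 * hs x + 2 * hs y := by
  unfold hs
  rw [Finset.mul_sum, Finset.mul_sum, ← Finset.sum_add_distrib]
  refine Finset.sum_le_sum (fun i _ => ?_)
  rw [Finset.mul_sum, Finset.mul_sum, ← Finset.sum_add_distrib]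
  exact Finset.sum_le_sum (fun j _ => nsq2 _ _)

theorem hs_add3 (x y z : Mt d) : hs (x + y + z) ≤ 3 * (hs x + hs y + hs z) := by
  unfold hs
  rw [← Finset.sum_add_distrib, ← Finset.sum_add_distrib, Finset.mul_sum]
  refine Finset.sum_le_sum (fun i _ => ?_)
  rw [← Finset.sum_add_distrib, ← Finset.sum_add_distrib, Finset.mul_sum]
  exact Finset.sum_le_sum (fun j _ => nsq3 _ _ _)

theorem tr_nonneg {x : Mt d} (h : x.PosSemidef) : 0 ≤ tr x := by
  have := h.trace_nonneg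
  exact (Complex.le_def.1 this).1

open scoped MatrixOrder in
theorem psd_fac {a : Mt d} (ha : a.PosSemidef) : ∃ s : Mt d, a = sᴴ * s :=
  CStarAlgebra.nonneg_iff_eq_star_mul_self.mp ha.nonneg

theorem psd_mul {a b : Mt d} (ha : a.PosSemidef) (hb : b.PosSemidef) : 0 ≤ tr (a * b) := by
  obtain ⟨s, rfl⟩ := psd_fac ha
  rw [Matrix.mul_assoc, tr_comm, Matrix.mul_assoc]
  have h := hb.mul_mul_conjTranspose_same s
  rw [Matrix.mul_assoc] at h
  exact tr_nonneg h

theorem le_mul {a b c : Mt d} (h : Le a b) (hc : c.PosSemidef) : tr (a * c) ≤ tr (b * c) := by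
  have := psd_mul h hc
  rw [Matrix.sub_mul, tr_sub] at this
  linarith

theorem le_mul' {a b c : Mt d} (h : Le a b) (hc : c.PosSemidef) : tr (c * a) ≤ tr (c * b) := by
  rw [tr_comm c a, tr_comm c b]; exact le_mul h hc

theorem hs_left {a : Mt d} (h : Le (aᴴ * a) 1) (x : Mt d) : hs (a * x) ≤ hs x := by
  rw [hs_eq, hs_eq', conjTranspose_mul]
  have e : tr (xᴴ * aᴴ * (a * x)) = tr ((aᴴ * a) * (x * xᴴ)) := by
    rw [tr_comm, Matrix.mul_assoc, tr_comm, ← Matrix.mul_assoc x xᴴ aᴴ, Matrix.mul_assoc (x * xᴴ),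
      tr_comm]
  rw [e]
  have := le_mul h (Matrix.posSemidef_self_mul_conjTranspose x)
  rwa [Matrix.one_mul] at this

theorem hs_right {a : Mt d} (h : Le (a * aᴴ) 1) (x : Mt d) : hs (x * a) ≤ hs x := by
  rw [← hs_star, conjTranspose_mul, ← hs_star x]
  apply hs_left
  rwa [conjTranspose_conjTranspose]

/-- functions of `0 ≤ g ≤ 1` -/
theorem gh_psd {g : Mt d} (h0 : g.PosSemidef) (h1 : (1 - g).PosSemidef) :
    (g * (1 - g)).PosSemidef := by
  have e : g * (1 - g) = g * (1 - g) * gᴴ + (1 - g) * g * (1 - g)ᴴ := by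
    rw [h0.isHermitian.eq, h1.isHermitian.eq]
    noncomm_ring
  rw [e]
  exact (h1.mul_mul_conjTranspose_same g).add (h0.mul_mul_conjTranspose_same (1 - g))

theorem sq_le {g : Mt d} (h0 : g.PosSemidef) (h1 : (1 - g).PosSemidef) : Le (g * g) 1 := by
  unfold Le
  have e : 1 - g * g = (1 - g) + g * (1 - g) := by noncomm_ring
  rw [e]
  exact h1.add (gh_psd h0 h1)

theorem gg_psd {lam : ℝ} {Q : Mt d} (hl : 0 ≤ lam) (hQ : Q.PosSemidef) :
    (gg lam Q).PosSemidef ∧ (1 - gg lam Q).PosSemidef := by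
  have hlQ : ((lam : ℂ) • Q).PosSemidef := hQ.smul (by exact_mod_cast hl)
  have hM : (1 + (lam : ℂ) • Q).PosDef := Matrix.PosDef.one.add_posSemidef hlQ
  have hgd : (gg lam Q).PosDef := hM.inv
  have hgg : (gg lam Q)ᴴ = gg lam Q := hgd.isHermitian.eq
  have hu : IsUnit (1 + (lam : ℂ) • Q).det := (Matrix.isUnit_iff_isUnit_det _).1 hM.isUnit
  have h1 : gg lam Q * (1 + (lam : ℂ) • Q) = 1 := Matrix.nonsing_inv_mul _ hu
  have h2 : (1 + (lam : ℂ) • Q) * gg lam Q = 1 := Matrix.mul_nonsing_inv _ hu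
  refine ⟨hgd.posSemidef, ?_⟩
  have e : 1 - gg lam Q = gg lam Q * ((lam : ℂ) • Q + ((lam : ℂ) • Q)ᴴ * ((lam : ℂ) • Q)) * (gg lam Q)ᴴ := by
    rw [hgg, hlQ.isHermitian.eq]
    have e1 : (lam : ℂ) • Q + ((lam : ℂ) • Q) * ((lam : ℂ) • Q)
        = (1 + (lam : ℂ) • Q) * ((1 + (lam : ℂ) • Q) - 1) := by
      rw [add_sub_cancel_left, Matrix.add_mul, Matrix.one_mul]
    rw [e1, ← Matrix.mul_assoc, h1, Matrix.one_mul, Matrix.sub_mul, h2, Matrix.one_mul]
  rw [e]
  exact (hlQ.add (Matrix.posSemidef_conjTranspose_mul_self _)).mul_mul_conjTranspose_same _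

theorem en_gfg {k : ℕ} (u : Fin k → Mt d) {g f : Mt d} (h0 : g.PosSemidef)
    (h1 : (1 - g).PosSemidef) (hf : IsPr f) :
    en u (g * f * g) ≤ 3 * (∑ s, hs ((u s * g - g * u s) * f) + en u f
      + ∑ s, hs (((u s)ᴴ * g - g * (u s)ᴴ) * f)) := by
  have hg := h0.isHermitian.eq
  have hl : Le (gᴴ * g) 1 := by rw [hg]; exact sq_le h0 h1
  have hr : Le (g * gᴴ) 1 := by rw [hg]; exact sq_le h0 h1
  unfold en
  rw [← Finset.sum_add_distrib, ← Finset.sum_add_distrib, Finset.mul_sum]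
  refine Finset.sum_le_sum (fun s _ => ?_)
  have e : u s * (g * f * g) - g * f * g * u s
      = (u s * g - g * u s) * f * g + g * (u s * f - f * u s) * g
        + g * (f * (u s * g - g * u s)) := by noncomm_ring
  rw [e]
  refine (hs_add3 _ _ _).trans ?_
  have a1 : hs ((u s * g - g * u s) * f * g) ≤ hs ((u s * g - g * u s) * f) := hs_right hr _
  have a2 : hs (g * (u s * f - f * u s) * g) ≤ hs (u s * f - f * u s) :=
    (hs_right hr _).trans (hs_left hl _)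
  have a3 : hs (g * (f * (u s * g - g * u s))) ≤ hs (((u s)ᴴ * g - g * (u s)ᴴ) * f) := by
    refine (hs_left hl _).trans (le_of_eq ?_)
    rw [← hs_star, ← hs_neg]
    congr 1
    rw [conjTranspose_mul, conjTranspose_sub, conjTranspose_mul, conjTranspose_mul, hg, hf.1]
    noncomm_ring
  linarith

theorem IsPr.psd {f : Mt d} (hf : IsPr f) : f.PosSemidef := by
  have : f = fᴴ * f := by rw [hf.1, hf.2]
  rw [this]
  exact Matrix.posSemidef_conjTranspose_mul_self f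

theorem IsPr.co {f : Mt d} (hf : IsPr f) : IsPr (1 - f) := by
  refine ⟨by rw [conjTranspose_sub, conjTranspose_one, hf.1], ?_⟩
  have : (1 - f) * (1 - f) = 1 - f - f + f * f := by noncomm_ring
  rw [this, hf.2]
  noncomm_ring

theorem IsPr.le_one {f : Mt d} (hf : IsPr f) : Le f 1 := IsPr.psd (IsPr.co hf)

end basics

theorem main (hL : LevP) (hC : CutP) (hI : IclP) (_hP : Pic1P) : Pic2P := by
  intro d k C η δ S lam e2 e3 δ1 θ Q f hη hC1 hlam hQ he2 he3 he3' hδ1 hδ hρ hθ hθ' hf hmin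
    hc1 hc2 hD1 hD2 hD3 hgh
  obtain ⟨hg0, hg1⟩ := gg_psd (zero_le_one.trans hlam) hQ
  have hhh : hh lam Q = 1 - gg lam Q := rfl
  have hfp := hf.pr
  have hF := hf.nz
  have hov := hf.ov
  obtain ⟨ρ, hρe⟩ : ∃ ρ : ℝ, ρ = rho k C η e2 := ⟨_, rfl⟩
  rw [← hρe] at hρ
  simp only [← hρe]
  rw [hhh] at hgh hov
  simp only [hhh]
  obtain ⟨g, hg⟩ : ∃ g : Mt d, g = gg lam Q := ⟨_, rfl⟩
  rw [← hg] at hg0 hg1 hc1 hc2 hD1 hD2 hD3 hgh hov
  simp only [← hg]
  have hgH := hg0.isHermitian.eq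
  have hl : Le (gᴴ * g) 1 := by rw [hgH]; exact sq_le hg0 hg1
  have hr : Le (g * gᴴ) 1 := by rw [hgH]; exact sq_le hg0 hg1
  obtain ⟨y, hy⟩ : ∃ y : Mt d, y = g * f * g := ⟨_, rfl⟩
  rw [← hy] at hD1 hD2 hD3
  -- y
  have hy0 : y.PosSemidef := by
    have := (IsPr.psd hfp).mul_mul_conjTranspose_same g
    rw [hgH] at this
    rw [hy]; exact this
  have hy1 : Le y 1 := by
    unfold Le
    have e : 1 - y = (1 - g * g) + g * (1 - f) * gᴴ := by
      rw [hy, hgH]; noncomm_ring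
    rw [e]
    exact (sq_le hg0 hg1).add ((IsPr.psd (IsPr.co hfp)).mul_mul_conjTranspose_same g)
  have htry : tr y ≤ tr f := by
    have e : tr y = tr ((g * g) * f) := by
      rw [hy, tr_comm, ← Matrix.mul_assoc]
    rw [e]
    have := le_mul (sq_le hg0 hg1) (IsPr.psd hfp)
    rwa [Matrix.one_mul] at this
  have hhsy : hs y ≤ tr f := by
    rw [hs_eq, hy0.isHermitian.eq]
    have := le_mul hy1 hy0
    rw [Matrix.one_mul] at this
    exact this.trans htry
  have heny : en S.u y ≤ 3 * (2 * e2 + 32 * √(k * η)) * tr f := by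
    have h1 := en_gfg S.u hg0 hg1 hfp
    have h2 := hf.inv
    rw [hy]
    linarith
  -- e
  obtain ⟨e, hep, hey, he1, he2', hene, -, hed⟩ := hL d k S.u y (1 / 2) (3 / 4) S.hu hy0 hy1
    (by norm_num) (by norm_num) le_rfl
  have hcast1 : (((1 / 2 : ℝ) : ℝ) : ℂ) = (1 / 2 : ℂ) := by push_cast; norm_num
  have hcast2 : (((3 / 4 : ℝ) : ℝ) : ℂ) = (3 / 4 : ℂ) := by push_cast; norm_num
  rw [hcast1] at he1
  rw [hcast2] at he2'
  rw [hy] at hey he1 he2'
  obtain ⟨hte, hthe, -⟩ := hC d f g e hfp hg0 hg1 hep hey he1 he2'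
  rw [← hy] at hey he1 he2'
  have hhe0 : 0 ≤ tr ((1 - g) * e) := psd_mul hg1 (IsPr.psd hep)
  have hE : tr f / 2 ≤ tr e := by linarith
  have hE0 : 0 < tr e := by linarith
  obtain ⟨W, hW⟩ : ∃ W : ℝ, W = 2 * e2 + 32 * √(k * η) := ⟨_, rfl⟩
  have hW0 : 0 ≤ W := by rw [hW]; positivity
  have hene' : en S.u e ≤ 32 * √(3 * k * W) * tr e := by
    have h1 : √(hs y * en S.u y) ≤ √(3 * W) * tr f := by
      have h2 : hs y * en S.u y ≤ tr f * (3 * W * tr f) := by
        rw [← hW] at heny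
        exact mul_le_mul hhsy heny (en_nonneg _ _) hF.le
      calc √(hs y * en S.u y) ≤ √(tr f * (3 * W * tr f)) := Real.sqrt_le_sqrt h2
        _ = √(3 * W) * tr f := by
          rw [show tr f * (3 * W * tr f) = (3 * W) * (tr f) ^ 2 by ring,
            Real.sqrt_mul (by positivity), Real.sqrt_sq hF.le]
    have h3 : √(3 * k * W) = √k * √(3 * W) := by
      rw [← Real.sqrt_mul (by positivity)]
      congr 1; ring
    calc en S.u e ≤ 2 * √k / (1 / 2 * (3 / 4 - 1 / 2)) * √(hs y * en S.u y) := hene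
      _ ≤ 2 * √k / (1 / 2 * (3 / 4 - 1 / 2)) * (√(3 * W) * tr f) :=
        mul_le_mul_of_nonneg_left h1 (by positivity)
      _ = 16 * √(3 * k * W) * tr f := by rw [h3]; ring
      _ ≤ 16 * √(3 * k * W) * (2 * tr e) :=
        mul_le_mul_of_nonneg_left (by linarith) (by positivity)
      _ = 32 * √(3 * k * W) * tr e := by ring
  have hρ0 : 0 ≤ ρ := by rw [hρe]; exact Real.sqrt_nonneg _
  have hρ2 : 16 * (C * (32 * √(3 * k * W)) + η) ≤ ρ ^ 2 := by
    rw [hρe, rho, Real.sq_sqrt (by positivity), hW]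
  -- coverage of e
  have hThalf : ∀ (a b : Mt d), Le ((1 / 2 : ℂ) • a) b → ∀ c : Mt d, c.PosSemidef →
      tr (c * a) ≤ 2 * tr (c * b) := by
    intro a b hab c hc
    have h1 := le_mul' hab hc
    have h2 : tr (c * ((1 / 2 : ℂ) • a)) = 1 / 2 * tr (c * a) := by
      rw [Matrix.mul_smul, ← hcast1, tr_smul]
    rw [h2] at h1
    linarith
  have hT : tr ((1 - g) * e) ≤ 4 * θ * tr e := by
    have h1 := hThalf e y he1 (1 - g) hg1
    have h2 : tr ((1 - g) * y) = tr (g * (1 - g) * g * f) := by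
      rw [hy, tr_comm]
      have : g * f * g * (1 - g) = g * f * (g * (1 - g)) := by noncomm_ring
      rw [this, tr_comm]
      congr 1
      noncomm_ring
    have h3 : Le (g * (1 - g) * g) (g * (1 - g)) := by
      unfold Le
      have e1 : g * (1 - g) - g * (1 - g) * g = (1 - g) * g * (1 - g)ᴴ := by
        rw [hg1.isHermitian.eq]; noncomm_ring
      rw [e1]
      exact hg0.mul_mul_conjTranspose_same _
    have h4 := le_mul h3 (IsPr.psd hfp)
    have h5 : θ * tr f ≤ θ * (2 * tr e) := mul_le_mul_of_nonneg_left (by linarith) hθ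
    linarith
  have hΦ : ∀ a b : Mt d, Le ((1 / 2 : ℂ) • a) b → Le ((1 / 2 : ℂ) • S.Φ a) (S.Φ b) := by
    intro a b hab
    have := S.pos _ hab
    rw [map_sub, map_smul] at this
    exact this
  have hΦe := hΦ _ _ he1
  have hΦΦe := hΦ _ _ hΦe
  have hδ1E : δ1 * tr f ≤ δ1 * (2 * tr e) := mul_le_mul_of_nonneg_left (by linarith) hδ1
  have hδE : 64 * δ1 * tr e ≤ δ * tr e := mul_le_mul_of_nonneg_right hδ hE0.le
  have hδ0 : 0 ≤ δ1 * tr e := mul_nonneg hδ1 hE0.le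
  have hDe : 2 * tr (S.D * e) ≤ δ * tr e := by
    have h1 := hThalf e y he1 _ S.hD
    linarith
  have hDΦe : 16 * tr (S.D * S.Φ e) ≤ δ * tr e := by
    have h1 := hThalf _ _ hΦe _ S.hD
    linarith
  obtain ⟨r, hr0⟩ : ∃ r : ℝ, r = ρ ^ 2 := ⟨_, rfl⟩
  have hr1 : 0 ≤ r := by rw [hr0]; exact sq_nonneg _
  have hr2 : r ≤ ρ / 200 := by rw [hr0]; nlinarith
  have hsum2 : ∀ a b : ℝ, 0 ≤ a → (√a + b) ^ 2 ≤ 2 * a + 2 * b ^ 2 := by
    intro a b ha
    have h1 := Real.sq_sqrt ha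
    nlinarith [sq_nonneg (√a - b)]
  obtain ⟨q, hqF, hq1, hq2, hq3, hq4, hq5⟩ := hI d k C η δ S lam (32 * √(3 * k * W)) (4 * θ) ρ Q e
    hη.le (zero_le_one.trans hC1) hlam hQ hep hE0 hρ0 (by positivity) (by rw [← hr0]; linarith)
    hρ2 hene' (by rw [hhh, ← hg]; exact hT)
    (by
      refine (hsum2 _ _ (by positivity)).trans ?_
      rw [← hr0]
      linarith)
    hDe hDΦe
  rw [hhh, ← hg] at hq3
  rw [← hr0] at hq1 hq2 hq4
  have hA : tr ((1 - g) * q) ≤ (8 * θ + 2 * r) * tr e := by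
    refine hq3.trans ((hsum2 _ _ hhe0).trans ?_)
    rw [mul_pow, Real.sq_sqrt hE0.le, ← hr0]
    linarith
  have hK2 : tr e / 2 ≤ tr q := by nlinarith
  have hq5' : ∀ c : Mt d, c.PosSemidef → tr (c * q) ≤ 4 * tr (c * S.Φ e) := by
    intro c hc
    have h1 := le_mul' hq5 hc
    have h2 : tr (c * ((4 : ℂ) • S.Φ e)) = 4 * tr (c * S.Φ e) := by
      rw [Matrix.mul_smul, show (4 : ℂ) = ((4 : ℝ) : ℂ) by norm_num, tr_smul]
    rw [h2] at h1
    exact h1
  have hq6 : Le (S.Φ q) ((4 : ℂ) • S.Φ (S.Φ e)) := by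
    have := S.pos _ hq5
    rw [map_sub, map_smul] at this
    exact this
  have hJ : ∀ x, JJ lam Q x = tr x + tr ((1 - g) * x) := by
    intro x; rw [JJ, hhh, ← hg]
  have hB0 : 0 ≤ tr ((1 - g) * f) := psd_mul hg1 (IsPr.psd hfp)
  have hJq : JJ lam Q q ≤ (1 + 8 * θ + 3 * r) * tr f := by
    rw [hJ]
    have h1 : tr q + tr ((1 - g) * q) ≤ (1 + 8 * θ + 3 * r) * tr e := by linarith
    exact h1.trans (mul_le_mul_of_nonneg_left hte (by positivity))
  have hJf : tr f ≤ JJ lam Q f := by rw [hJ]; linarith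
  have hc3 : (1 + 8 * θ + 3 * r) * (1 + e3) ≤ 1 + 8 * θ + 3 * r + 2 * e3 := by nlinarith
  have hB : tr ((1 - g) * f) ≤ (8 * θ + 3 * r + 2 * e3) * tr f := by
    have h1 := hmin q hqF
    rw [hJ f] at h1
    have h2 : (1 + e3) * JJ lam Q q ≤ (1 + e3) * ((1 + 8 * θ + 3 * r) * tr f) :=
      mul_le_mul_of_nonneg_left hJq (by linarith)
    have h3 : (1 + 8 * θ + 3 * r) * (1 + e3) * tr f ≤ (1 + 8 * θ + 3 * r + 2 * e3) * tr f :=
      mul_le_mul_of_nonneg_right hc3 hF.le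
    linarith
  refine ⟨q, hqF, ?_, ?_, ?_, ?_, ?_, ?_⟩
  · have h1 : (8 * θ + 2 * r) * tr e ≤ (32 * θ + 8 * ρ) * (tr e / 2) := by nlinarith
    exact hA.trans (h1.trans (mul_le_mul_of_nonneg_left hK2 (by positivity)))
  · have h1 := hq5' _ S.hD
    have h2 := hThalf _ _ hΦe _ S.hD
    have h3 : δ1 * (tr e / 2) ≤ δ1 * tr q := mul_le_mul_of_nonneg_left hK2 hδ1
    linarith
  · have h1 : tr (S.D * S.Φ q) ≤ 4 * tr (S.D * S.Φ (S.Φ e)) := by
      have h1 := le_mul' hq6 S.hD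
      have h2 : tr (S.D * ((4 : ℂ) • S.Φ (S.Φ e))) = 4 * tr (S.D * S.Φ (S.Φ e)) := by
        rw [Matrix.mul_smul, show (4 : ℂ) = ((4 : ℝ) : ℂ) by norm_num, tr_smul]
      rw [h2] at h1
      exact h1
    have h2 := hThalf _ _ hΦΦe _ S.hD
    have h3 : δ1 * (tr e / 2) ≤ δ1 * tr q := mul_le_mul_of_nonneg_left hK2 hδ1
    linarith
  · intro f' hf'
    have h1 := hmin f' hf'
    have h0 : 0 ≤ JJ lam Q f' := by
      rw [hJ]
      exact add_nonneg hf'.nz.le (psd_mul hg1 (IsPr.psd hf'.pr))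
    have h2 : (1 + 8 * θ + 3 * r) * tr f ≤ (1 + 8 * θ + 3 * r) * ((1 + e3) * JJ lam Q f') :=
      mul_le_mul_of_nonneg_left (hJf.trans h1) (by positivity)
    have h3 : (1 + 8 * θ + 3 * r) * (1 + e3) * JJ lam Q f'
        ≤ (1 + 32 * θ + 8 * ρ + 4 * e3) * JJ lam Q f' :=
      mul_le_mul_of_nonneg_right (by linarith) h0
    linarith
  · have h1 : hs (q - f) ≤ 2 * hs (q - e) + 2 * hs (e - f) := by
      have := hs_add (q - e) (e - f)
      rwa [sub_add_sub_cancel] at this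
    have h2 := hed f hfp
    have h3 : hs (y - f) ≤ 4 * tr ((1 - g) * f) := by
      have e1 : y - f = -(g * (f * (1 - g)) + (1 - g) * f) := by
        rw [hy]; noncomm_ring
      rw [e1, hs_neg]
      refine (hs_add _ _).trans ?_
      have h4 : hs (g * (f * (1 - g))) ≤ hs ((1 - g) * f) := by
        refine (hs_left hl _).trans (le_of_eq ?_)
        rw [← hs_star, conjTranspose_mul, hfp.1, hg1.isHermitian.eq]
      have h5 : hs ((1 - g) * f) ≤ tr ((1 - g) * f) := by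
        rw [hs_eq, conjTranspose_mul, hfp.1, hg1.isHermitian.eq]
        have e2 : tr (f * (1 - g) * ((1 - g) * f)) = tr (((1 - g) * (1 - g)) * f) := by
          rw [tr_comm]
          have : (1 - g) * f * (f * (1 - g)) = (1 - g) * (f * f) * (1 - g) := by noncomm_ring
          rw [this, hfp.2, tr_comm]
          congr 1
          noncomm_ring
        rw [e2]
        apply le_mul _ (IsPr.psd hfp)
        unfold Le
        have e3 : (1 - g) - (1 - g) * (1 - g) = g * (1 - g) := by noncomm_ring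
        rw [e3]
        exact gh_psd hg0 hg1
      linarith
    have h6 : r * tr e ≤ r * tr f := mul_le_mul_of_nonneg_left hte hr1
    have h7 : hs (q - f) ≤ (2 * r + 128 * (8 * θ + 3 * r + 2 * e3)) * tr f := by linarith
    refine h7.trans (mul_le_mul_of_nonneg_right ?_ hF.le)
    linarith
  · refine hB.trans (mul_le_mul_of_nonneg_right ?_ hF.le)
    linarith

end Pool.Agent.W922.RC
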